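import Pool.Agent.MWHP.StmtsP
import Pool.Agent.Helper30_MWH.LT4

/-!
# Block MWHP, row LT4
-/

namespace Pool.Agent.MWHP.H30

open Pool.Agent.Helper14_MV Pool.Agent.Helper2_MV Pool.Agent.MVO Pool.Agent.MWL Pool.Agent.MWS

theorem lt4 (hH : MWL.HvpStmt) (hA : MWL.ArrStmt) (hT1 : MWL.Ta1Stmt) (hT2 : MWL.Ta2Stmt) :
    Pool.Agent.MWHP.Lt4Stmt := by
  intro n R hR k a hN hd j hj haj
  obtain ⟨h1, h2, h3⟩ := Pool.Agent.MWH.H30L.lt4_core hH hA hT1 hT2 n R hR k a hN hd j hj haj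
  exact ⟨h1, h2, fun hJ hD hLL hl => h3 hJ hD
    (fun u v huv hv hu hv1 hz => hLL u v ⟨huv, hv, hu, hv1, hz⟩) hl⟩

end Pool.Agent.MWHP.H30

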